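import Pool.Agent.MP_bd94e8_al.H83A.Kit
import Pool.Agent.MP_bd94e8_al.H89.B3

/-!
The presentation, the basis and the algebra of matrices of a reduction.
-/

set_option autoImplicit false
set_option linter.unusedSectionVars false

namespace Pool.Agent.MP_bd94e8_al.H83A

open Module Function H83 H89

namespace PresA

variable {A : Type} [Ring A] {F S Z M M' : Type} [Field F] [AddCommGroup S] [Module A S]
  [Module F S] [SMulCommClass A F S] [AddCommGroup Z] [Module A Z] [AddCommGroup M] [Module A M]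
  [AddCommGroup M'] [Module A M'] {ι : S →ₗ[A] Z}

theorem map_Wm (f : M →ₗ[A] M') {x : M} (hx : x ∈ Wm ι M) : f x ∈ Wm ι M' := by
  have : Wm ι M ≤ (Wm ι M').comap f := iSup_le fun h => by
    rintro _ ⟨y, rfl⟩
    exact Submodule.mem_iSup_of_mem (f ∘ₗ h) ⟨y, rfl⟩
  exact this hx

/-- All maps from `Z` vanish on `S`. -/
def Kl (ι : S →ₗ[A] Z) (M : Type) [AddCommGroup M] [Module A M] : Prop :=
  ∀ h : Z →ₗ[A] M, h ∘ₗ ι = 0

theorem Kl.smd (h : Kl ι M') (hs : Smd A M M') : Kl ι M := fun g => by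
  obtain ⟨a, b, e⟩ := hs
  refine LinearMap.ext fun x => ?_
  have h1 : a (g (ι x)) = 0 := LinearMap.congr_fun (h (a ∘ₗ g)) x
  have h2 : b (a (g (ι x))) = g (ι x) := LinearMap.congr_fun e _
  rw [h1, map_zero] at h2
  exact h2.symm

theorem Kl.kill (h : Kl ι M) : ∀ a ∈ Wm ι A, ∀ x : M, a • x = 0 := fun a ha x => by
  have h1 : Wm ι M = ⊥ := iSup_eq_bot.2 fun g => by rw [h g, LinearMap.range_zero]
  have h2 := map_Wm (LinearMap.toSpanSingleton A M x) ha
  rw [h1] at h2
  exact h2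

theorem two : Ideal.IsTwoSided (Wm ι A) :=
  ⟨fun b ha => map_Wm (LinearMap.toSpanSingleton A A b) ha⟩

theorem wm_ne (hr : Red F ι) : Wm ι A ≠ ⊥ := fun e => by
  obtain ⟨h, hh⟩ := hr.ne
  exact hh (LinearMap.range_eq_bot.1 (iSup_eq_bot.1 e h))

theorem smd_pi {τ Y : Type} [Fintype τ] {X : τ → Type} [∀ s, AddCommGroup (X s)]
    [∀ s, Module A (X s)] [AddCommGroup Y] [Module A Y] (h : ∀ s, Smd A (X s) Y) :
    ∃ r : ℕ, Smd A (∀ s, X s) (Fin r → Y) := by
  choose a b e using h
  refine ⟨Fintype.card τ, Smd.trans (Y := τ → Y)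
    ⟨LinearMap.pi fun s => a s ∘ₗ LinearMap.proj s, LinearMap.pi fun s => b s ∘ₗ LinearMap.proj s,
      LinearMap.ext fun x => funext fun s => LinearMap.congr_fun (e s) (x s)⟩
    (Smd.of_equiv (LinearEquiv.funCongrLeft A Y (Fintype.equivFin τ).symm))⟩

theorem exists_list [IsArtinianRing A] [IsNoetherianRing A] (hr : Red F ι) (hI : FinI A) :
    ∃ (m : ℕ) (X : Fin m → Type) (_ : ∀ i, AddCommGroup (X i)) (_ : ∀ i, Module A (X i)),
      (∀ i, Module.Finite A (X i) ∧ Nontrivial (X i)) ∧ (∀ i, Kl ι (X i)) ∧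
      ∀ (M : Type) [AddCommGroup M] [Module A M] [Module.Finite A M], Kl ι M →
        ∃ (τ : Type) (_ : Fintype τ) (l : τ → Fin m), Nonempty (M ≃ₗ[A] ∀ s, X (l s)) := by
  classical
  have := two (ι := ι)
  obtain ⟨n, X, _, _, h1, h2⟩ := hI (Wm ι A) (wm_ne hr)
  let e := (Fintype.equivFin {i // Kl ι (X i)}).symm
  refine ⟨_, fun j => X (e j).1, inferInstance, inferInstance,
    fun j => ⟨(h1 _).1, (h1 _).2.1.1⟩, fun j => (e j).2, fun M _ _ _ hM => ?_⟩
  obtain ⟨τ, _, _, l, -, h3⟩ := decomp' (A := A) (X := fun j => X (e j).1) _ M rfl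
    fun G _ _ hG hs => by
      have hk := hM.smd hs
      obtain ⟨i, ⟨f⟩⟩ := h2 G hs.fin hG hk.kill
      obtain ⟨j, hj⟩ := e.surjective ⟨i, hk.smd (Smd.of_equiv f.symm)⟩
      exact ⟨j, by rw [hj]; exact ⟨f⟩⟩
  exact ⟨τ, inferInstance, l, h3⟩

theorem exists_pres (hr : Red F ι) [Module.Finite A Z] [Module.Finite A M] (hM : Kl ι M) :
    ∃ (P Y : Type) (_ : AddCommGroup P) (_ : Module A P) (_ : Module.Finite A P)
      (_ : Projective A P) (_ : AddCommGroup Y) (_ : Module A Y) (π : P →ₗ[A] Y),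
      Pres ι (LinearMap.ker π).subtype π ∧ Smd A M Y := by
  obtain ⟨r, π, hπ⟩ := Module.Finite.exists_fin' A M
  rcases hr.alt with h | ⟨h1, h2⟩
  · exact ⟨Fin r → A, M, inferInstance, inferInstance, inferInstance, inferInstance, inferInstance,
      inferInstance, π, ⟨Subtype.val_injective, π.exact_subtype_ker_map, hπ, hM, Or.inl h⟩,
      Smd.of_equiv (LinearEquiv.refl _ _)⟩
  · refine ⟨(Fin r → A) × Z, M × (Z ⧸ LinearMap.range ι), inferInstance, inferInstance,
      inferInstance, inferInstance, inferInstance, inferInstance,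
      π.prodMap (LinearMap.range ι).mkQ, ⟨Subtype.val_injective, LinearMap.exact_subtype_ker_map _,
        hπ.prodMap (Submodule.mkQ_surjective _), fun g => LinearMap.ext fun x => Prod.ext ?_ ?_,
        Or.inr ⟨LinearMap.inr A _ Z, LinearMap.snd A _ Z,
          (LinearMap.inr A _ Z ∘ₗ ι).codRestrict _ fun x => ?_,
          (LinearEquiv.ofInjective ι hr.inj).symm.toLinearMap ∘ₗ
            (LinearMap.snd A _ Z ∘ₗ (LinearMap.ker _).subtype).codRestrict _ fun x => ?_,
          rfl, LinearMap.ext fun x => ?_, LinearMap.ext fun x => ?_⟩⟩,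
      ⟨LinearMap.inl A _ _, LinearMap.fst A _ _, rfl⟩⟩
    · exact LinearMap.congr_fun (hM (LinearMap.fst A _ _ ∘ₗ g)) x
    · obtain ⟨τ, hτ⟩ := Module.projective_lifting_property (LinearMap.range ι).mkQ
        (LinearMap.snd A _ _ ∘ₗ g) (Submodule.mkQ_surjective _)
      exact (LinearMap.congr_fun hτ (ι x)).symm.trans
        ((Submodule.Quotient.mk_eq_zero _).2 (h2 τ x))
    · exact Prod.ext (map_zero π) ((Submodule.Quotient.mk_eq_zero _).2 ⟨x, rfl⟩)
    · exact (Submodule.Quotient.mk_eq_zero _).1 (congrArg Prod.snd x.2)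
    · exact congrArg Subtype.val ((LinearEquiv.ofInjective ι hr.inj).apply_symm_apply _)
    · exact (LinearEquiv.ofInjective ι hr.inj).symm_apply_apply x

section bas
variable (C : Type) [CommRing C] [Algebra C A] [Algebra C F]

theorem fin_S [Module.Finite C A] [IsSimpleModule A S]
    (hc : ∀ (c : C) (x : S), algebraMap C A c • x = algebraMap C F c • x) :
    Module.Finite F S := by
  have := IsSimpleModule.nontrivial A S
  obtain ⟨x0, hx0⟩ := exists_ne (0 : S)
  obtain ⟨s, hs⟩ := Module.Finite.fg_top (R := C) (M := A)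
  refine ⟨Submodule.fg_def.2 ⟨(fun a : A => a • x0) '' (s : Set A), s.finite_toSet.image _,
    top_unique fun y _ => ?_⟩⟩
  obtain ⟨a, rfl⟩ := IsSimpleModule.toSpanSingleton_surjective A hx0 y
  have ha : a ∈ Submodule.span C (s : Set A) := by rw [hs]; trivial
  change a • x0 ∈ _
  induction ha using Submodule.span_induction with
  | mem a ha => exact Submodule.subset_span ⟨a, ha, rfl⟩
  | zero => simp
  | add a b _ _ h1 h2 => rw [add_smul]; exact Submodule.add_mem _ (h1 trivial) (h2 trivial)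
  | smul c a _ h1 =>
    rw [Algebra.smul_def, mul_smul, hc]
    exact Submodule.smul_mem _ _ (h1 trivial)

theorem fin_hom [Module.Finite F S] [Module.Finite A M] : Module.Finite F (M →ₗ[A] S) := by
  obtain ⟨r, π, hπ⟩ := Module.Finite.exists_fin' A M
  let ev : (M →ₗ[A] S) →ₗ[F] (Fin r → S) :=
    { toFun := fun η j => η (π (Pi.single j 1))
      map_add' := fun _ _ => rfl
      map_smul' := fun _ _ => rfl }
  refine Module.Finite.of_injective ev fun η η' h => ?_
  have h1 : η ∘ₗ π = η' ∘ₗ π := LinearMap.pi_ext' fun j => LinearMap.ext_ring (congrFun h j)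
  exact LinearMap.ext fun y => by
    obtain ⟨x, rfl⟩ := hπ y
    exact LinearMap.congr_fun h1 x

/-- Multiplication by an element of the base. -/
def mc (M : Type) [AddCommGroup M] [Module A M] (c : C) : M →ₗ[A] M where
  toFun x := algebraMap C A c • x
  map_add' := smul_add _
  map_smul' a x := by rw [RingHom.id_apply, smul_smul, smul_smul, Algebra.commutes]

end bas

end PresA

open PresA

theorem pres : SPres := by
  intro C A F S Z _ _ _ _ _ _ _ _ _ _ _ _ _ _ ι hr _ hI
  have := artin C A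
  have := noeth C A
  obtain ⟨m, X, _, _, h1, h2, h3⟩ := exists_list hr hI
  have := fun i => (h1 i).1
  obtain ⟨P, Y, _, _, _, _, _, _, π, hp, hs⟩ := exists_pres (M := ∀ i, X i) hr fun g =>
    LinearMap.ext fun x => funext fun i => LinearMap.congr_fun (h2 i (LinearMap.proj i ∘ₗ g)) x
  refine ⟨LinearMap.ker π, P, Y, inferInstance, inferInstance, inferInstance, inferInstance,
    inferInstance, inferInstance, inferInstance, inferInstance, inferInstance, _, π, m, X,
    inferInstance, inferInstance, hp, h1, fun M _ _ _ hM => ?_⟩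
  obtain ⟨τ, _, l, ⟨e⟩⟩ := h3 M hM
  obtain ⟨r, h4⟩ := smd_pi (X := fun s => X (l s)) fun s => (Smd.single (l s)).trans hs
  exact ⟨⟨r, (Smd.of_equiv e).trans h4⟩, τ, inferInstance, l, ⟨e⟩⟩

theorem bas : SBas := by
  intro C A F S Z _ _ _ _ _ _ _ _ _ _ _ _ _ _ ι hr hc k _ _ _ _ hk Ω P _ _ _ _ _ κ
  have := hr.simple
  have : Module.Finite F S := fin_S C hc
  have : Module.Finite F (Ω →ₗ[A] S) := fin_hom
  let N := B3A.N0s hr κ
  let b := Module.finBasis F ((Ω →ₗ[A] S) ⧸ N)
  choose n hn using fun p => N.mkQ_surjective (b p)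
  have hcomp : ∀ (γ : P →ₗ[A] P) (γ' : Ω →ₗ[A] Ω), γ ∘ₗ κ = κ ∘ₗ γ' → ∀ η ∈ N, η ∘ₗ γ' ∈ N := by
    rintro γ γ' h η ⟨g, hg⟩
    exact ⟨g ∘ₗ γ, by rw [LinearMap.comp_assoc, h, ← LinearMap.comp_assoc, hg,
      LinearMap.comp_assoc]⟩
  refine ⟨_, n,
    { carrier := BSet F ι κ n
      mul_mem' := ?_, add_mem' := ?_, algebraMap_mem' := fun x => ?_ },
    ⟨fun c h => ?_, fun η => ⟨b.repr (N.mkQ η), ?_⟩⟩, rfl⟩
  · rintro u v ⟨γ, γ', e, h⟩ ⟨δ, δ', e', h'⟩
    refine ⟨δ ∘ₗ γ, δ' ∘ₗ γ', by rw [LinearMap.comp_assoc, e, ← LinearMap.comp_assoc, e',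
      LinearMap.comp_assoc], fun p => ?_⟩
    have h1 : _ ∈ N := hcomp γ γ' e _ (h' p)
    have h2 : ∑ q, v q p • (n q ∘ₗ γ' - ∑ r, u r q • n r) ∈ N :=
      N.sum_mem fun q _ => N.smul_mem _ (h q)
    have h3 := N.add_mem h1 h2
    change _ ∈ N
    convert h3 using 1
    have h4 : (∑ q, v q p • n q) ∘ₗ γ' = ∑ q, v q p • n q ∘ₗ γ' := by
      ext x
      simp
    have h5 : ∑ q, (u * v) q p • n q = ∑ q, v q p • ∑ r, u r q • n r := by
      simp only [Matrix.mul_apply, Finset.sum_smul, Finset.smul_sum, smul_smul]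
      rw [Finset.sum_comm]
      exact Finset.sum_congr rfl fun q _ => Finset.sum_congr rfl fun r _ => by rw [mul_comm]
    rw [LinearMap.sub_comp, h4, h5, LinearMap.comp_assoc]
    simp only [smul_sub, Finset.sum_sub_distrib]
    abel
  · rintro u v ⟨γ, γ', e, h⟩ ⟨δ, δ', e', h'⟩
    refine ⟨γ + δ, γ' + δ', by rw [LinearMap.add_comp, LinearMap.comp_add, e, e'], fun p => ?_⟩
    have h3 := N.add_mem (h p) (h' p)
    change _ ∈ N
    convert h3 using 1
    simp only [LinearMap.comp_add, Matrix.add_apply, add_smul, Finset.sum_add_distrib]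
    abel
  · obtain ⟨c, rfl⟩ := hk x
    refine ⟨mc C P c, mc C Ω c, LinearMap.ext fun y => (map_smul κ _ y).symm, fun p => ?_⟩
    change _ ∈ N
    convert N.zero_mem
    rw [sub_eq_zero, Finset.sum_eq_single p (fun q _ hq => by
      simp [Matrix.algebraMap_matrix_apply, hq]) (by simp)]
    ext y
    simp only [Matrix.algebraMap_matrix_apply, if_true, ← IsScalarTower.algebraMap_apply,
      LinearMap.smul_apply, ← hc]
    exact map_smul (n p) _ y
  · have h1 : N.mkQ (∑ p, c p • n p) = 0 := (Submodule.Quotient.mk_eq_zero N).2 h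
    simp only [map_sum, map_smul, hn] at h1
    exact funext (Fintype.linearIndependent_iff.1 b.linearIndependent c h1)
  · refine (Submodule.Quotient.mk_eq_zero N).1 ?_
    change N.mkQ _ = 0
    simp only [map_sub, map_sum, map_smul, hn]
    rw [b.sum_repr, sub_self]

end Pool.Agent.MP_bd94e8_al.H83A
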